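import Pool.Agent.Helper59.Pack.Key

/-!
# SY: a lower bound for the lattice packing density of all convex bodies: definitions

`E3` is Euclidean three-space, `P2 = Fin 2 → ℝ`; `mk3 y t = (y, t)`, `pr (y, t) = y`, `len C y` is the
length of the vertical section of `C` over `y`, `proj C` the projection of `C`.
-/

set_option autoImplicit false
namespace Pool.Agent.Helper37.SY
open MeasureTheory Metric
open Pool.Agent.Helper59.Pack Pool.Agent.Helper69.MD
open scoped ENNReal Pointwise

/-- `C` is symmetric in the origin. -/
def Sym (C : Set E3) : Prop := ∀ x ∈ C, -x ∈ C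

/-- The shear which moves the direction `(v, 1)` to the vertical direction. -/
noncomputable def shm (v : P2) (x : E3) : E3 := mk3 (pr x - x 2 • v) (x 2)

/-- The inverse shear. -/
noncomputable def shi (v : P2) (x : E3) : E3 := mk3 (pr x + x 2 • v) (x 2)

/-- The image of `C` under the shear `shm v`. -/
def sh (v : P2) (C : Set E3) : Set E3 := shi v ⁻¹' C

/-- Half of the vertical chord over the origin (for symmetric `C`: `(0, t) ∈ C` iff `|t| ≤ hh C`). -/
noncomputable def hh (C : Set E3) : ℝ := len C 0 / 2

/-- The points over which the vertical chord is longer than `hh C`. -/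
def up (C : Set E3) : Set P2 := {y | hh C < len C y}

/-- The volume of `C ∩ (C + (0, s))` as an integral over the plane. -/
noncomputable def gg (C : Set E3) (s : ℝ) : ℝ := ∫ y, max (len C y - s) 0


/-- The planar lattice with basis `t₁, t₂` has no primitive point in `H` and at most two pairs of
primitive points in `N`. -/
def GoodLat (N H : Set P2) (t₁ t₂ : P2) : Prop :=
  (∀ m n : ℤ, IsCoprime m n → (m : ℝ) • t₁ + (n : ℝ) • t₂ ∉ H) ∧
    ∃ p q : ℤ × ℤ, ∀ m n : ℤ, IsCoprime m n → (m : ℝ) • t₁ + (n : ℝ) • t₂ ∈ N →
      (m, n) = p ∨ (m, n) = -p ∨ (m, n) = q ∨ (m, n) = -q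

end Pool.Agent.Helper37.SY
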