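import Pool.Agent.Helper37.SY.Main
import Pool.Agent.Helper33.RS.Final

/-!
# SY: the bound in terms of the asymmetry
-/

set_option autoImplicit false
namespace Pool.Agent.Helper37.SY
open MeasureTheory Metric
open Pool.Agent.Helper59.Pack Pool.Agent.Helper69.MD
open scoped ENNReal Pointwise

/-- If a translate of `-K` lies in `s K` then `π² / (4 (1 + 3 s)) ≤ δ_L(K)`. -/
theorem asym_bound {K : Set E3} (hK : IsConvexBody K) {s : ℝ} {x : E3} (hs : 0 ≤ s)
    (h : ∀ y ∈ K, x - y ∈ s • K) :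
    ENNReal.ofReal (Real.pi ^ 2 / (4 * (1 + 3 * s))) ≤ deltaL K := by
  have h1 := main hK
  refine le_trans ?_ h1
  have hd := Pool.Agent.Helper33.RS.diff_vol hK hs h
  rw [volume_half (K - K)] at hd
  have hKp : volume K ≠ 0 := (Measure.measure_pos_of_nonempty_interior volume
    hK.interior_nonempty).ne'
  have hKf : volume K ≠ ⊤ := hK.isCompact.measure_lt_top.ne
  have e1 : ENNReal.ofReal (2 + 6 * s) = 8 * ENNReal.ofReal ((2 + 6 * s) / 8) := by
    rw [show (8 : ℝ≥0∞) = ENNReal.ofReal 8 by norm_num, ← ENNReal.ofReal_mul (by norm_num)]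
    congr 1
    ring
  rw [e1, mul_assoc] at hd
  have hd2 : volume ((1 / 2 : ℝ) • (K - K)) ≤ ENNReal.ofReal ((2 + 6 * s) / 8) * volume K :=
    (ENNReal.mul_le_mul_iff_right (by norm_num) (by norm_num)).1 hd
  have hp : 0 < (2 + 6 * s) / 8 := by positivity
  have e2 : ENNReal.ofReal (Real.pi ^ 2 / (4 * (1 + 3 * s))) =
      ENNReal.ofReal (Real.pi ^ 2 / 16) * (ENNReal.ofReal ((2 + 6 * s) / 8))⁻¹ := by
    rw [← ENNReal.ofReal_inv_of_pos hp, ← ENNReal.ofReal_mul (by positivity)]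
    congr 1
    field_simp
    ring
  rw [e2]
  gcongr
  rw [ENNReal.le_div_iff_mul_le (Or.inl (vol_half_pos hK)) (Or.inl (vol_half_fin hK))]
  calc (ENNReal.ofReal ((2 + 6 * s) / 8))⁻¹ * volume ((1 / 2 : ℝ) • (K - K))
      ≤ (ENNReal.ofReal ((2 + 6 * s) / 8))⁻¹ * (ENNReal.ofReal ((2 + 6 * s) / 8) * volume K) := by
        gcongr
    _ = volume K := by
        rw [← mul_assoc, ENNReal.inv_mul_cancel (by simpa using hp) ENNReal.ofReal_ne_top, one_mul]

end Pool.Agent.Helper37.SY
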