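import Pool.Agent.Helper37.SY.Defs

/-!
# SY, block G1: shears, the gauge on rays
-/

set_option autoImplicit false
namespace Pool.Agent.Helper37.SY
open MeasureTheory Metric
open Pool.Agent.Helper59.Pack Pool.Agent.Helper69.MD
open scoped ENNReal Pointwise

@[simp] theorem shi_zero (v : P2) (x : E3) : shi v x 0 = x 0 + x 2 * v 0 := rfl
@[simp] theorem shi_one (v : P2) (x : E3) : shi v x 1 = x 1 + x 2 * v 1 := rfl
@[simp] theorem shi_two (v : P2) (x : E3) : shi v x 2 = x 2 := rfl
@[simp] theorem shm_zero (v : P2) (x : E3) : shm v x 0 = x 0 - x 2 * v 0 := rfl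
@[simp] theorem shm_one (v : P2) (x : E3) : shm v x 1 = x 1 - x 2 * v 1 := rfl
@[simp] theorem shm_two (v : P2) (x : E3) : shm v x 2 = x 2 := rfl

/-- The inverse shear as a linear equivalence. -/
noncomputable def shE (v : P2) : E3 ≃ₗ[ℝ] E3 where
  toFun := shi v
  invFun := shm v
  map_add' x y := by
    apply E3_ext
    · simp only [shi_zero, PiLp.add_apply]; ring
    · simp only [shi_one, PiLp.add_apply]; ring
    · simp only [shi_two, PiLp.add_apply]
  map_smul' c x := by
    apply E3_ext
    · simp only [shi_zero, PiLp.smul_apply, smul_eq_mul, RingHom.id_apply]; ring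
    · simp only [shi_one, PiLp.smul_apply, smul_eq_mul, RingHom.id_apply]; ring
    · simp only [shi_two, PiLp.smul_apply, smul_eq_mul, RingHom.id_apply]
  left_inv x := by
    apply E3_ext
    · simp only [shi_zero, shm_zero, shi_two]; ring
    · simp only [shi_one, shm_one, shi_two]; ring
    · simp only [shi_two, shm_two]
  right_inv x := by
    apply E3_ext
    · simp only [shi_zero, shm_zero, shm_two]; ring
    · simp only [shi_one, shm_one, shm_two]; ring
    · simp only [shi_two, shm_two]

/-- The inverse shear as a homeomorphism. -/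
noncomputable def shH (v : P2) : E3 ≃L[ℝ] E3 := (shE v).toContinuousLinearEquiv

theorem shH_apply (v : P2) (x : E3) : shH v x = shi v x := rfl
theorem shH_symm_apply (v : P2) (x : E3) : (shH v).symm x = shm v x := rfl

theorem sh_eq (v : P2) (C : Set E3) : sh v C = shH v ⁻¹' C := rfl

theorem sh_eq_image (v : P2) (C : Set E3) : sh v C = (shH v).symm '' C := by
  rw [sh_eq]
  ext x
  constructor
  · intro hx
    exact ⟨shH v x, hx, (shH v).symm_apply_apply x⟩
  · rintro ⟨y, hy, rfl⟩
    change shH v ((shH v).symm y) ∈ C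
    rw [(shH v).apply_symm_apply]
    exact hy

theorem shi_mk3 (v y : P2) (t : ℝ) : shi v (mk3 y t) = mk3 (y + t • v) t :=
  E3_ext rfl rfl rfl

theorem mem_sh {v : P2} {C : Set E3} {y : P2} {t : ℝ} :
    mk3 y t ∈ sh v C ↔ mk3 (y + t • v) t ∈ C := by
  rw [← shi_mk3]; rfl

theorem mp_shi (v : P2) : MeasurePreserving (shi v) := by
  have h1 : MeasurePreserving (fun p : ℝ × P2 => (p.1, p.2 + p.1 • v)) := by
    refine MeasurePreserving.skew_product (MeasurePreserving.id volume)
      (g := fun t y => y + t • v) ?_ ?_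
    · exact (measurable_snd.add (measurable_fst.smul_const v))
    · exact Filter.Eventually.of_forall (fun t => map_add_right_eq_self volume (t • v))
  have h2 : Measurable (fun x : E3 => ((x 2, pr x) : ℝ × P2)) := by
    have : Continuous (fun x : E3 => ((x 2, pr x) : ℝ × P2)) :=
      (PiLp.continuous_apply 2 _ 2).prodMk continuous_pr
    exact this.measurable
  have h3 : MeasurePreserving (fun x : E3 => ((x 2, pr x) : ℝ × P2)) := by
    refine ⟨h2, ?_⟩
    have h4 := mp_mk3.map_eq
    rw [← h4, Measure.map_map h2 mp_mk3.measurable]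
    have : ((fun x : E3 => ((x 2, pr x) : ℝ × P2)) ∘ fun p : ℝ × P2 => mk3 p.2 p.1) = id := by
      funext p
      exact Prod.ext rfl (pr_mk3 _ _)
    rw [this, Measure.map_id]
  exact (mp_mk3.comp h1).comp h3

theorem volume_sh (v : P2) (C : Set E3) : volume (sh v C) = volume C :=
  (mp_shi v).measure_preimage_emb (shH v).toHomeomorph.measurableEmbedding C

theorem body_sh {C : Set E3} (hC : IsConvexBody C) (v : P2) : IsConvexBody (sh v C) where
  convex := by
    rw [sh_eq]
    exact hC.convex.linear_preimage (shE v).toLinearMap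
  isCompact := by
    rw [sh_eq_image]
    exact hC.isCompact.image (shH v).symm.continuous
  interior_nonempty := by
    obtain ⟨x, hx⟩ := hC.interior_nonempty
    refine ⟨(shH v).symm x, ?_⟩
    have h1 : interior (sh v C) = shH v ⁻¹' interior C :=
      ((shH v).toHomeomorph.preimage_interior C).symm
    rw [h1]
    change shH v ((shH v).symm x) ∈ interior C
    rw [(shH v).apply_symm_apply]
    exact hx

theorem sym_sh {C : Set E3} (hs : Sym C) (v : P2) : Sym (sh v C) := by
  intro x hx
  change shH v (-x) ∈ C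
  rw [map_neg]
  exact hs _ hx

theorem zero_mem_interior {C : Set E3} (hC : IsConvexBody C) (hs : Sym C) :
    (0 : E3) ∈ interior C := by
  obtain ⟨x, hx⟩ := hC.interior_nonempty
  have h1 : -x ∈ interior C := by
    rw [mem_interior] at hx ⊢
    obtain ⟨U, hU, hUo, hxU⟩ := hx
    refine ⟨-U, ?_, hUo.neg, by simpa using hxU⟩
    intro y hy
    have := hs _ (hU hy)
    simpa using this
  have h2 := hC.convex.interior hx h1 (show (0 : ℝ) ≤ 1 / 2 by norm_num)
    (show (0 : ℝ) ≤ 1 / 2 by norm_num) (by norm_num)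
  simpa using h2

theorem mk3_neg (y : P2) (t : ℝ) : mk3 (-y) (-t) = -mk3 y t := E3_ext rfl rfl rfl

theorem mem_axis {C : Set E3} (hC : IsConvexBody C) (hs : Sym C) (t : ℝ) :
    mk3 0 t ∈ C ↔ |t| ≤ hh C := by
  have h0 : (0 : P2) ∈ proj C := by
    refine ⟨0, interior_subset (zero_mem_interior hC hs), ?_⟩
    exact P2_ext rfl rfl
  obtain ⟨a, b, hab, ha, hb, hl⟩ := len_mem hC h0
  have hneg : ∀ s : ℝ, mk3 0 s ∈ C → mk3 0 (-s) ∈ C := by
    intro s hs'
    have := hs _ hs'
    rw [← mk3_neg, neg_zero] at this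
    exact this
  have h1 := len_ge hC ha (hneg a ha)
  have h2 := len_ge hC (hneg b hb) hb
  have h3 := len_ge hC (hneg b hb) (hneg a ha)
  have h4 : -a = b := by linarith
  have h5 : hh C = b := by
    unfold hh
    rw [hl]; linarith
  rw [h5]
  constructor
  · intro ht
    have h6 := len_ge hC ht (hneg t ht)
    have h7 := len_ge hC (hneg t ht) ht
    rw [abs_le]
    constructor <;> linarith
  · intro ht
    rw [abs_le] at ht
    have ha' : mk3 0 (-b) ∈ C := by rw [← h4, neg_neg]; exact ha
    exact (sec_convex hC 0).ordConnected.out ha' hb ⟨ht.1, ht.2⟩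

theorem hh_pos {C : Set E3} (hC : IsConvexBody C) (hs : Sym C) : 0 < hh C := by
  obtain ⟨ε, hε, hball⟩ := Metric.isOpen_iff.1 (isOpen_interior.preimage (continuous_mk3 0))
      (0 : ℝ) (show (0 : ℝ) ∈ mk3 0 ⁻¹' interior C by
        rw [Set.mem_preimage]
        have : mk3 0 0 = 0 := E3_ext rfl rfl rfl
        rw [this]
        exact zero_mem_interior hC hs)
  have h1 : mk3 0 (ε / 2) ∈ C := by
    apply interior_subset
    apply hball
    rw [mem_ball, Real.dist_eq, sub_zero, abs_of_pos (by positivity)]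
    linarith
  have h2 := (mem_axis hC hs _).1 h1
  rw [abs_of_pos (by positivity)] at h2
  linarith

theorem len_le {C : Set E3} (hC : IsConvexBody C) (hs : Sym C) (y : P2) :
    len C y ≤ 2 * hh C := by
  by_cases hy : y ∈ proj C
  · obtain ⟨a, b, hab, ha, hb, hl⟩ := len_mem hC hy
    have h1 := hC.convex hb (hs _ ha) (show (0 : ℝ) ≤ 1 / 2 by norm_num)
      (show (0 : ℝ) ≤ 1 / 2 by norm_num) (by norm_num)
    have h2 : (1 / 2 : ℝ) • mk3 y b + (1 / 2 : ℝ) • -mk3 y a = mk3 0 ((b - a) / 2) := by
      apply E3_ext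
      · simp
      · simp
      · simp only [PiLp.add_apply, PiLp.smul_apply, PiLp.neg_apply, mk3_two, smul_eq_mul]
        ring
    rw [h2, mem_axis hC hs, abs_of_nonneg (by linarith)] at h1
    rw [hl]
    linarith
  · rw [len_off hy]
    linarith [hh_pos hC hs]

theorem mem_ray {C : Set E3} (hC : IsConvexBody C) (hs : Sym C) (v : P2) (s : ℝ) :
    mk3 (s • v) s ∈ C ↔ |s| ≤ hh (sh v C) := by
  rw [← mem_axis (body_sh hC v) (sym_sh hs v), mem_sh, zero_add]

theorem smul_mk3 (c : ℝ) (y : P2) (t : ℝ) : c • mk3 y t = mk3 (c • y) (c * t) :=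
  E3_ext rfl rfl rfl

theorem gauge_ray {C : Set E3} (hC : IsConvexBody C) (hs : Sym C) (v : P2) (s : ℝ) :
    gauge C (mk3 (s • v) s) = |s| / hh (sh v C) := by
  have hM := hh_pos (body_sh hC v) (sym_sh hs v)
  have key : ∀ r : ℝ, 0 < r → (mk3 (s • v) s ∈ r • C ↔ |s| / hh (sh v C) ≤ r) := by
    intro r hr
    rw [Set.mem_smul_set_iff_inv_smul_mem₀ hr.ne', smul_mk3, smul_smul, mem_ray hC hs,
      abs_mul, abs_of_pos (inv_pos.2 hr), div_le_iff₀ hM, inv_mul_le_iff₀ hr]
  have hnhds : C ∈ nhds (0 : E3) := mem_interior_iff_mem_nhds.1 (zero_mem_interior hC hs)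
  apply le_antisymm
  · apply le_of_forall_gt_imp_ge_of_dense
    intro r hr
    have hr0 : 0 < r := lt_of_le_of_lt (by positivity) hr
    exact gauge_le_of_mem hr0.le ((key r hr0).2 hr.le)
  · by_contra h
    push Not at h
    obtain ⟨b, hb0, hb, hmem⟩ := exists_lt_of_gauge_lt (absorbent_nhds_zero hnhds) h
    exact absurd ((key b hb0).1 hmem) (not_le.2 hb)

end Pool.Agent.Helper37.SY
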