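import Pool.Agent.Helper19.SY.Dir37
import Pool.Agent.Helper33.SY.Column
import Pool.Agent.Helper37.SY.G1

/-!
# SY, block F: the lower bound
-/

set_option autoImplicit false
namespace Pool.Agent.Helper37.SY
open MeasureTheory Metric Filter Topology
open Pool.Agent.Helper59.Pack Pool.Agent.Helper69.MD
open Pool.Agent.Helper33.SY
open scoped ENNReal Pointwise

/-- The statement of the mean value theorem. -/
def MeanValue : Prop :=
  ∀ {N H : Set P2}, Convex ℝ N → Convex ℝ H → (0 : P2) ∈ N → (0 : P2) ∈ H →
    Bornology.IsBounded N → Bornology.IsBounded H → MeasurableSet N → MeasurableSet H →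
    ∀ {D : ℝ}, ((volume N).toReal + 2 * (volume H).toReal) / Real.pi ^ 2 < D →
    ∃ t₁ t₂ : P2, det2 t₁ t₂ = D ∧ (prim t₁ t₂ N).Finite ∧
      (prim t₁ t₂ N).ncard + 2 * (prim t₁ t₂ H).ncard < 6

/-- The statement of the invariance under shears. -/
def ShearInv : Prop := ∀ {K : Set E3}, IsConvexBody K → ∀ v : P2, deltaL (sh v K) ≤ deltaL K

theorem diff_body {K : Set E3} (hK : IsConvexBody K) : IsConvexBody (K - K) where
  convex := hK.convex.sub hK.convex
  isCompact := by
    have h1 : K - K = (fun p : E3 × E3 => p.1 - p.2) '' (K ×ˢ K) := by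
      ext x
      constructor
      · rintro ⟨a, ha, b, hb, rfl⟩
        exact ⟨(a, b), ⟨ha, hb⟩, rfl⟩
      · rintro ⟨⟨a, b⟩, ⟨ha, hb⟩, rfl⟩
        exact ⟨a, ha, b, hb, rfl⟩
    rw [h1]
    exact (hK.isCompact.prod hK.isCompact).image (continuous_fst.sub continuous_snd)
  interior_nonempty := by
    obtain ⟨x, hx⟩ := hK.interior_nonempty
    refine ⟨x - x, ?_⟩
    have h1 : interior K - K ⊆ interior (K - K) :=
      interior_maximal (Set.sub_subset_sub_right interior_subset) isOpen_interior.sub_right
    exact h1 (Set.sub_mem_sub hx (interior_subset hx))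

theorem diff_sym (K : Set E3) : Sym (K - K) := by
  rintro _ ⟨a, ha, b, hb, rfl⟩
  exact ⟨b, hb, a, ha, (neg_sub a b).symm⟩

theorem volume_half (C : Set E3) : volume C = 8 * volume ((1 / 2 : ℝ) • C) := by
  rw [Measure.addHaar_smul, finrank_euclideanSpace, Fintype.card_fin, ← mul_assoc]
  have : (8 : ℝ≥0∞) * ENNReal.ofReal |(1 / 2 : ℝ) ^ 3| = 1 := by
    rw [show (8 : ℝ≥0∞) = ENNReal.ofReal 8 by simp, ← ENNReal.ofReal_mul (by norm_num),
      abs_of_pos (by norm_num)]
    norm_num
  rw [this, one_mul]

theorem up_convex {C : Set E3} (hC : IsConvexBody C) (hs : Sym C) : Convex ℝ (up C) := by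
  have h1 := (len_concave hC).convex_gt (hh C)
  have h2 : {x | x ∈ proj C ∧ hh C < len C x} = up C := by
    ext x
    constructor
    · exact fun h => h.2
    · intro h
      refine ⟨?_, h⟩
      by_contra hx
      have h3 : hh C < len C x := h
      rw [len_off hx] at h3
      linarith [hh_pos hC hs]
  rwa [h2] at h1

theorem up_subset {C : Set E3} (hC : IsConvexBody C) (hs : Sym C) : up C ⊆ proj C := by
  intro x h
  by_contra hx
  have h3 : hh C < len C x := h
  rw [len_off hx] at h3
  linarith [hh_pos hC hs]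

/-- BLOCK F -/
theorem main_of (mv : MeanValue) (si : ShearInv) {K : Set E3} (hK : IsConvexBody K) :
    ENNReal.ofReal (Real.pi ^ 2 / 16) * (volume K / volume ((1 / 2 : ℝ) • (K - K))) ≤
      deltaL K := by
  have hC := diff_body hK
  have hs := diff_sym K
  obtain ⟨v, hv⟩ := Pool.Agent.Helper19.SY.exists_dir37 hC hs
  set C : Set E3 := K - K with hCdef
  have hC' := body_sh hC v
  have hs' := sym_sh hs v
  have hM0 := hh_pos hC' hs'
  have hpi : 0 < Real.pi ^ 2 := by positivity
  have hlen0 : len (sh v C) 0 = 2 * hh (sh v C) := by unfold hh; ring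
  have hVC : 0 < (volume C).toReal :=
    ENNReal.toReal_pos (Measure.measure_pos_of_nonempty_interior volume hC.interior_nonempty).ne'
      hC.isCompact.measure_lt_top.ne
  -- every determinant above the threshold
  have key : ∀ D, ((volume (proj (sh v C))).toReal + 2 * (volume (up (sh v C))).toReal) /
      Real.pi ^ 2 < D → volume K / ENNReal.ofReal (hh (sh v C) * D) ≤ deltaL K := by
    intro D hD
    have hD0 : 0 < D := lt_of_le_of_lt (by positivity) hD
    have h0H : (0 : P2) ∈ up (sh v C) := by
      change hh (sh v C) < len (sh v C) 0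
      rw [hlen0]; linarith
    have hbN : Bornology.IsBounded (proj (sh v C)) := (proj_compact hC').isBounded
    obtain ⟨t₁, t₂, hdet, hfin, hcount⟩ := mv (proj_convex hC') (up_convex hC' hs')
      (up_subset hC' hs' h0H) h0H hbN (hbN.subset (up_subset hC' hs'))
      (proj_compact hC').isClosed.measurableSet
      (measurableSet_lt measurable_const (measurable_len hC')) hD
    have hsub : ∀ x ∈ interior (sh v K), ∀ y ∈ interior (sh v K),
        x - y ∈ interior (sh v C) := by
      intro x hx y hy
      have h1 : interior (sh v K) - sh v K ⊆ interior (sh v C) := by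
        refine interior_maximal ?_ isOpen_interior.sub_right
        rintro _ ⟨a, ha, b, hb, rfl⟩
        have ha' : shH v a ∈ K := (interior_subset ha : a ∈ sh v K)
        have hb' : shH v b ∈ K := hb
        change shH v (a - b) ∈ C
        rw [map_sub]
        exact Set.sub_mem_sub ha' hb'
      exact h1 (Set.sub_mem_sub hx (interior_subset hy))
    have h2 := column (body_sh hK v) hC' hs' hsub hlen0 hM0 (hdet ▸ hD0) hfin hcount
    rw [hdet, volume_sh] at h2
    exact h2.trans (si hK v)
  -- every covolume above the threshold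
  have key2 : ∀ E, 2 * (volume C).toReal / Real.pi ^ 2 < E →
      volume K ≤ deltaL K * ENNReal.ofReal E := by
    intro E hE
    have hE0 : 0 < E := lt_of_le_of_lt (by positivity) hE
    have h1 := key (E / hh (sh v C)) (by
      rw [lt_div_iff₀ hM0]
      refine lt_of_le_of_lt ?_ hE
      rw [div_mul_eq_mul_div]
      refine div_le_div_of_nonneg_right ?_ hpi.le
      linarith)
    rw [mul_div_cancel₀ _ hM0.ne'] at h1
    rwa [ENNReal.div_le_iff_le_mul (Or.inl (ENNReal.ofReal_pos.2 hE0).ne')
      (Or.inl ENNReal.ofReal_ne_top)] at h1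
  have hE1 : 0 < 2 * (volume C).toReal / Real.pi ^ 2 := by positivity
  have key3 : volume K ≤ deltaL K * ENNReal.ofReal (2 * (volume C).toReal / Real.pi ^ 2) := by
    have ht : Tendsto (fun E => deltaL K * ENNReal.ofReal E)
        (𝓝[>] (2 * (volume C).toReal / Real.pi ^ 2))
        (𝓝 (deltaL K * ENNReal.ofReal (2 * (volume C).toReal / Real.pi ^ 2))) := by
      apply ENNReal.Tendsto.const_mul
      · exact (ENNReal.continuous_ofReal.tendsto _).mono_left nhdsWithin_le_nhds
      · exact Or.inl (ENNReal.ofReal_pos.2 hE1).ne'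
    refine ge_of_tendsto ht ?_
    filter_upwards [self_mem_nhdsWithin] with E hE
    exact key2 E hE
  -- conclusion
  have hvh := volume_half C
  have hW0 : volume ((1 / 2 : ℝ) • C) ≠ 0 := by
    intro h
    rw [h, mul_zero] at hvh
    rw [hvh] at hVC
    simp at hVC
  have hWt : volume ((1 / 2 : ℝ) • C) ≠ ⊤ := by
    intro h
    rw [h, ENNReal.mul_top (by norm_num)] at hvh
    rw [hvh] at hVC
    simp at hVC
  rw [← mul_div_assoc, ENNReal.div_le_iff_le_mul (Or.inl hW0) (Or.inl hWt)]
  have h4 : ENNReal.ofReal (2 * (volume C).toReal / Real.pi ^ 2) =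
      ENNReal.ofReal (16 / Real.pi ^ 2) * volume ((1 / 2 : ℝ) • C) := by
    rw [hvh, ENNReal.toReal_mul, ← ENNReal.ofReal_toReal hWt, ← ENNReal.ofReal_mul (by positivity)]
    rw [ENNReal.ofReal_toReal hWt]
    congr 1
    simp
    ring
  rw [h4, ← mul_assoc, mul_comm (deltaL K), mul_assoc] at key3
  calc ENNReal.ofReal (Real.pi ^ 2 / 16) * volume K
      ≤ ENNReal.ofReal (Real.pi ^ 2 / 16) * (ENNReal.ofReal (16 / Real.pi ^ 2) *
        (deltaL K * volume ((1 / 2 : ℝ) • C))) := by gcongr
    _ = deltaL K * volume ((1 / 2 : ℝ) • C) := by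
        rw [← mul_assoc, ← ENNReal.ofReal_mul (by positivity)]
        rw [show Real.pi ^ 2 / 16 * (16 / Real.pi ^ 2) = 1 by field_simp]
        rw [ENNReal.ofReal_one, one_mul]

end Pool.Agent.Helper37.SY
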