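import Pool.Agent.Helper37.SY.G1

/-!
# SY, block G2: the volumes of the intersections
-/

set_option autoImplicit false
namespace Pool.Agent.Helper37.SY
open MeasureTheory Metric
open Pool.Agent.Helper59.Pack Pool.Agent.Helper69.MD
open scoped ENNReal Pointwise

theorem mk3_sub_mk3 (y : P2) (t s : ℝ) : mk3 y t - mk3 0 s = mk3 y (t - s) := by
  apply E3_ext <;> simp

theorem integrable_gg {C : Set E3} (hC : IsConvexBody C) {s : ℝ} (hs : 0 ≤ s) :
    Integrable fun y => max (len C y - s) 0 := by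
  obtain ⟨B, hB⟩ := len_bounded hC
  refine integrable_comp hC (ψ := fun t => max (t - s) 0) ?_ ?_ (C := B + 0) ?_
  · exact (measurable_id.sub_const s).max measurable_const
  · simp [hs]
  · intro y
    have h1 := hB y
    have h2 := len_nonneg C y
    rw [abs_of_nonneg (le_max_right _ _)]
    exact max_le (by linarith) (by linarith)

/-- The volume of `C ∩ (C + (0, s))`. -/
theorem vol_shift {C : Set E3} (hC : IsConvexBody C) (s : ℝ) :
    volume {x | x ∈ C ∧ x - mk3 0 s ∈ C} = ENNReal.ofReal (gg C |s|) := by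
  have hcl : IsClosed C := hC.isCompact.isClosed
  have hm : MeasurableSet {x | x ∈ C ∧ x - mk3 0 s ∈ C} := by
    have h1 : IsClosed {x | x ∈ C ∧ x - mk3 0 s ∈ C} :=
      hcl.inter (hcl.preimage (continuous_id.sub continuous_const))
    exact h1.measurableSet
  have h1 := mp_mk3.measure_preimage hm.nullMeasurableSet
  rw [← h1, Measure.volume_eq_prod, Measure.prod_apply_symm (mp_mk3.measurable hm)]
  unfold gg
  rw [ofReal_integral_eq_lintegral_ofReal (integrable_gg hC (abs_nonneg s))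
    (Filter.Eventually.of_forall fun y => le_max_right _ _)]
  refine lintegral_congr fun y => ?_
  have e : (fun x : ℝ => (x, y)) ⁻¹' ((fun p : ℝ × P2 => mk3 p.2 p.1) ⁻¹'
      {x | x ∈ C ∧ x - mk3 0 s ∈ C}) = {t | mk3 y t ∈ C ∧ mk3 y (t - s) ∈ C} := by
    ext t
    simp only [Set.mem_preimage, Set.mem_ofPred_eq]
    rw [mk3_sub_mk3]
  rw [e]
  by_cases hy : y ∈ proj C
  · obtain ⟨a, b, hab, ha, hb, hl⟩ := len_mem hC hy
    have hsec : ∀ t, mk3 y t ∈ C ↔ a ≤ t ∧ t ≤ b := by
      intro t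
      constructor
      · intro ht
        have h2 := len_ge hC ht hb
        have h3 := len_ge hC ha ht
        constructor <;> linarith
      · intro ht
        exact (sec_convex hC y).ordConnected.out ha hb ht
    have e2 : {t | mk3 y t ∈ C ∧ mk3 y (t - s) ∈ C} = Set.Icc (max a (a + s)) (min b (b + s)) := by
      ext t
      simp only [Set.mem_ofPred_eq, hsec, Set.mem_Icc, max_le_iff, le_min_iff]
      constructor
      · rintro ⟨⟨h2, h3⟩, h4, h5⟩
        exact ⟨⟨h2, by linarith⟩, h3, by linarith⟩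
      · rintro ⟨⟨h2, h3⟩, h4, h5⟩
        exact ⟨⟨h2, h4⟩, by linarith, by linarith⟩
    rw [e2, Real.volume_Icc]
    rcases le_total 0 s with h | h
    · rw [max_eq_right (by linarith), min_eq_left (by linarith), abs_of_nonneg h, hl]
      rw [show b - (a + s) = b - a - s by ring]
      exact (ENNReal.ofReal_max (b - a - s) 0 ▸ by simp)
    · rw [max_eq_left (by linarith), min_eq_right (by linarith), abs_of_nonpos h, hl]
      rw [show b + s - a = b - a - -s by ring]
      exact (ENNReal.ofReal_max (b - a - -s) 0 ▸ by simp)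
  · have e2 : {t | mk3 y t ∈ C ∧ mk3 y (t - s) ∈ C} = ∅ := by
      rw [Set.eq_empty_iff_forall_notMem]
      rintro t ⟨ht, -⟩
      exact hy ⟨_, ht, pr_mk3 _ _⟩
    rw [e2, measure_empty, len_off hy, max_eq_right (by linarith [abs_nonneg s]),
      ENNReal.ofReal_zero]

/-- BLOCK G2, first part -/
theorem vol_inter {C : Set E3} (hC : IsConvexBody C) (_hs : Sym C) (v : P2) (s : ℝ) :
    volume {y | y ∈ C ∧ y - mk3 (s • v) s ∈ C} = ENNReal.ofReal (gg (sh v C) |s|) := by
  rw [← vol_shift (body_sh hC v), ← volume_sh v]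
  congr 1
  ext x
  change (shH v x ∈ C ∧ shH v x - mk3 (s • v) s ∈ C) ↔ (shH v x ∈ C ∧ shH v (x - mk3 0 s) ∈ C)
  have : shH v (mk3 0 s) = mk3 (s • v) s := by
    rw [shH_apply, shi_mk3, zero_add]
  rw [map_sub, this]

theorem gauge_le_iff {C : Set E3} (hC : IsConvexBody C) (hs : Sym C) {γ : ℝ} (hγ : 0 < γ)
    (y : E3) : gauge C y ≤ γ ↔ γ⁻¹ • y ∈ C := by
  have h1 : gauge C (γ⁻¹ • y) ≤ 1 ↔ γ⁻¹ • y ∈ closure C :=
    gauge_le_one_iff_mem_closure hC.convex
      (mem_interior_iff_mem_nhds.1 (zero_mem_interior hC hs))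
  rw [hC.isCompact.isClosed.closure_eq, gauge_smul_of_nonneg (inv_nonneg.2 hγ.le), smul_eq_mul,
    inv_mul_le_iff₀ hγ, mul_one] at h1
  exact h1

/-- BLOCK G2, second part -/
theorem vol_fibre {C : Set E3} (hC : IsConvexBody C) (hs : Sym C) (v : P2) {s : ℝ} (h0 : s ≠ 0) :
    volume {y | gauge C y ≤ gauge C (mk3 (s • v) s) ∧
        gauge C (y - mk3 (s • v) s) ≤ gauge C (mk3 (s • v) s)} =
      ENNReal.ofReal ((|s| / hh (sh v C)) ^ 3 * gg (sh v C) (hh (sh v C))) := by
  have hM := hh_pos (body_sh hC v) (sym_sh hs v)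
  rw [gauge_ray hC hs]
  set γ : ℝ := |s| / hh (sh v C) with hγ
  have hγ0 : 0 < γ := div_pos (abs_pos.2 h0) hM
  have e : {y | gauge C y ≤ γ ∧ gauge C (y - mk3 (s • v) s) ≤ γ} =
      γ • {z | z ∈ C ∧ z - mk3 ((γ⁻¹ * s) • v) (γ⁻¹ * s) ∈ C} := by
    ext y
    rw [Set.mem_smul_set_iff_inv_smul_mem₀ hγ0.ne']
    simp only [Set.mem_ofPred_eq]
    rw [gauge_le_iff hC hs hγ0, gauge_le_iff hC hs hγ0, smul_sub, smul_mk3, smul_smul]
  rw [e, Measure.addHaar_smul, vol_inter hC hs]
  have h1 : |γ⁻¹ * s| = hh (sh v C) := by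
    rw [abs_mul, abs_of_pos (inv_pos.2 hγ0), hγ, inv_div]
    field_simp
  rw [h1, ← ENNReal.ofReal_mul (abs_nonneg _)]
  congr 2
  rw [finrank_euclideanSpace, Fintype.card_fin, abs_of_pos (by positivity)]

end Pool.Agent.Helper37.SY
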