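import Pool.Agent.Helper37.SY.F
import Pool.Agent.Helper4.SY.Mean
import Pool.Agent.Helper1.SY.L
import Pool.Agent.Helper84.SY.U

/-!
# SY: the two-sided bound for all convex bodies
-/

set_option autoImplicit false
namespace Pool.Agent.Helper37.SY
open MeasureTheory Metric
open Pool.Agent.Helper59.Pack Pool.Agent.Helper69.MD
open scoped ENNReal Pointwise

theorem meanValue : MeanValue := fun hN hH h0N h0H hNb hHb hNm hHm _ hD =>
  Pool.Agent.Helper4.SY.mean_value hN hH h0N h0H hNb hHb hNm hHm hD

theorem shearInv : ShearInv := fun hK v => Pool.Agent.Helper1.SY.deltaL_sh hK v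

/-- `(π²/16) Vol(K)/Vol(DK) ≤ δ_L(K)`. -/
theorem main {K : Set E3} (hK : IsConvexBody K) :
    ENNReal.ofReal (Real.pi ^ 2 / 16) * (volume K / volume ((1 / 2 : ℝ) • (K - K))) ≤
      deltaL K := main_of meanValue shearInv hK

theorem vol_half_pos {K : Set E3} (hK : IsConvexBody K) :
    volume ((1 / 2 : ℝ) • (K - K)) ≠ 0 := by
  intro h
  have h1 := volume_half (K - K)
  rw [h, mul_zero] at h1
  exact (Measure.measure_pos_of_nonempty_interior volume (diff_body hK).interior_nonempty).ne' h1

theorem vol_half_fin {K : Set E3} (hK : IsConvexBody K) :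
    volume ((1 / 2 : ℝ) • (K - K)) ≠ ⊤ := by
  intro h
  have h1 := volume_half (K - K)
  rw [h, ENNReal.mul_top (by norm_num)] at h1
  exact (diff_body hK).isCompact.measure_lt_top.ne h1

/-- The difference body of a centrally symmetric body has the same volume. -/
theorem vol_half_symm {K : Set E3} (hK : IsConvexBody K) {c : E3} (hc : ∀ x ∈ K, c - x ∈ K) :
    volume ((1 / 2 : ℝ) • (K - K)) = volume K := by
  have h : (1 / 2 : ℝ) • (K - K) = (fun x => -((1 / 2 : ℝ) • c) + x) '' K := by
    ext x
    constructor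
    · rintro ⟨_, ⟨a, ha, b, hb, rfl⟩, rfl⟩
      refine ⟨(1 / 2 : ℝ) • a + (1 / 2 : ℝ) • (c - b), ?_, ?_⟩
      · exact hK.convex ha (hc b hb) (by norm_num) (by norm_num) (by norm_num)
      · simp only [smul_sub]
        abel
    · rintro ⟨y, hy, rfl⟩
      refine ⟨y - (c - y), ⟨y, hy, c - y, hc y hy, rfl⟩, ?_⟩
      simp only
      module
  rw [h, Set.image_add_left, measure_preimage_add]

theorem symm_bound {K : Set E3} (hK : IsConvexBody K) {c : E3} (hc : ∀ x ∈ K, c - x ∈ K) :
    ENNReal.ofReal (Real.pi ^ 2 / 16) ≤ deltaL K := by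
  have h := main hK
  rw [vol_half_symm hK hc, ENNReal.div_self ?_ hK.isCompact.measure_lt_top.ne, mul_one] at h
  · exact h
  · exact (Measure.measure_pos_of_nonempty_interior volume hK.interior_nonempty).ne'

end Pool.Agent.Helper37.SY
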